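import Pool.Agent.Lib.MP_cb1d9b_co.All

namespace Pool.Agent.Results.MP_cb1d9b_co.LowerBound

/-- `m_cr(S_2, 3) ≥ 29/7`, where `S_2` is the path with two edges. -/
theorem result : (29 : ℝ) / 7 ≤ CB1.mcr (SimpleGraph.pathGraph 3) 3 :=
  CB1.le_mcr fun n => CB1.main_all (Fin n)

end Pool.Agent.Results.MP_cb1d9b_co.LowerBound
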